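import Mathlib
import Pool.Agent.H10.EtaLib

set_option autoImplicit false

namespace Pool.Agent.Results.MP_165839_co.EtaNonneg

open Finset Classical Pool.Agent.H10.EtaLib

/-- `fvec H Q k`: number of complete subgraphs with `k+1` vertices of the graph induced on `Q` -/
noncomputable def fvec {W : Type} (H : SimpleGraph W) (Q : Finset W) (k : ℕ) : ℕ :=
  ((faces H Q).filter (fun s => s.card = k + 1)).card

/-- the functional `2 v_1 - 3 v_2 + 4 v_3 - ...` of the barycentric refinement
(`v_k` vanishes once `k+1` exceeds the number of vertices of the refinement) -/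
noncomputable def etaF {V : Type} (G : SimpleGraph V) (A : Finset V) : ℤ :=
  ∑ k ∈ Icc 1 (faces G A).card, (-1) ^ (k + 1) * (k + 1) * (fvec (bary V) (faces G A) k : ℤ)

theorem result (V : Type) (G : SimpleGraph V) (A : Finset V) (d : ℕ) (h : IsVariety G (d + 1) A) :
    0 ≤ etaF G A := by
  have h1 := eta_nonneg A d h
  have h2 := gauss (G := bary V) (faces G A)
  have h3 : ((etaF G A : ℤ) : ℚ) = eta G A := by
    rw [eta, h2, etaF]
    push_cast
    simp only [fvec, card_filter]
    push_cast
    simp only [mul_sum]
    rw [sum_comm]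
    refine sum_congr rfl fun s hs => ?_
    have c1 := card_le_card (mem_cq.1 (mem_faces.1 hs).1).1
    split_ifs with h2
    · rw [sum_eq_single (s.card - 1)]
      · obtain ⟨j, hj⟩ : ∃ j, s.card = j + 1 := ⟨s.card - 1, by omega⟩
        rw [hj]; simp
      · intro b _ hb
        rw [if_neg (by omega), mul_zero]
      · intro hb
        exact absurd (mem_Icc.2 ⟨by omega, by omega⟩) hb
    · refine sum_eq_zero fun b hb => ?_
      have := mem_Icc.1 hb
      rw [if_neg (by omega), mul_zero]
  have : etaF G A = eta G A := by exact_mod_cast h3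
  rw [this]; exact h1

end Pool.Agent.Results.MP_165839_co.EtaNonneg
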